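import Pool.Agent.SL3.Defs

/-!
# SL6: the equality case of sharp slicing, and the reduction to LOCAL maximisers among polytopes

`LCrit a`: a local maximiser of `rhoG (pol a)` among the polytopes with `N` pairs of facets, all facets present, in isotropic
position.  (`SL3.Crit a → LCrit a`.)  `SL6/Main.lean`: if all polytopes with at most `N₀` pairs of facets satisfy `rhoG ≤ 1`, with
equality only for parallelepipeds, and for some `δ > 0` no `LCrit a` with more than `N₀` pairs of facets has
`rhoG (pol a) > 1 - δ`, then `rhoG K ≤ 1` for all symmetric bodies, with equality only for parallelepipeds.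
-/

set_option autoImplicit false

open MeasureTheory Set Filter
open Pool.Agent.Helper15.LpM Pool.Agent.LPZ Pool.Agent.SPE Pool.Agent.SL3
open scoped Topology Pointwise

namespace Pool.Agent.SL6

/-- a LOCAL maximiser of `rhoG (pol a)` in isotropic position, all `N` pairs of facets being present -/
structure LCrit {n N : ℕ} (a : Fin N → Fin n → ℝ) : Prop where
  spn : Spn a
  mx : ∀ᶠ b in 𝓝 a, Spn b → rhoG (pol b) ≤ rhoG (pol a)
  iso : Iso (pol a)
  pos : ∀ i, 0 < volume (cel a i)

theorem LCrit.of_crit {n N : ℕ} {a : Fin N → Fin n → ℝ} (h : Crit a) : LCrit a :=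
  ⟨h.spn, Eventually.of_forall h.mx, h.iso, h.pos⟩

/-- dilation distance at most `ε` to some parallelepiped -/
def NearP {n : ℕ} (ε : ℝ) (K : Set (Fin n → ℝ)) : Prop :=
  ∃ L : Set (Fin n → ℝ), Ppd L ∧ K ⊆ (1 + ε) • L ∧ L ⊆ (1 + ε) • K

/-- the dilation distance to the parallelepipeds is at least `ε` -/
def Far {n : ℕ} (ε : ℝ) (K : Set (Fin n → ℝ)) : Prop :=
  ∀ ε' : ℝ, 0 < ε' → ε' < ε → ¬ NearP ε' K

end Pool.Agent.SL6
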