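import Pool.Agent.SL6.Defs
import Pool.Agent.SL3.Mxm
import Pool.Agent.SL3.Dns
import Pool.Agent.SL3.Cel

/-!
# SL6 / Far: the polytopes far from parallelepipeds form a closed class, maximisers exist
-/

set_option autoImplicit false

open MeasureTheory Set Filter
open Pool.Agent.Helper15.LpM Pool.Agent.LPZ Pool.Agent.SPE Pool.Agent.SL3
open scoped Topology Pointwise

namespace Pool.Agent.SL6

variable {n N : ℕ} {K L : Set (Fin n → ℝ)}

theorem smul_sub (hK : IsSymmBody K) {c d : ℝ} (hc : 0 < c) (hcd : c ≤ d) : c • K ⊆ d • K := by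
  rintro _ ⟨x, hx, rfl⟩
  have hd : 0 < d := hc.trans_le hcd
  refine ⟨(c / d) • x, hK.convex.smul_mem_of_zero_mem hK.zero_mem hx
    ⟨by positivity, (div_le_one hd).2 hcd⟩, ?_⟩
  show d • ((c / d) • x) = c • x
  rw [smul_smul, mul_div_cancel₀ _ hd.ne']

theorem body_ppd (hL : Ppd L) : IsSymmBody L := by
  obtain ⟨T, rfl⟩ := hL
  exact body_image T (body_cube n)

theorem sub_smul_trans {A B C : Set (Fin n → ℝ)} {c d : ℝ} (h1 : A ⊆ c • B) (h2 : B ⊆ d • C) :
    A ⊆ (c * d) • C := by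
  intro x hx
  obtain ⟨y, hy, rfl⟩ := h1 hx
  obtain ⟨z, hz, rfl⟩ := h2 hy
  exact ⟨z, hz, (smul_smul c d z).symm⟩

theorem NearP.mono (hK : IsSymmBody K) {ε ε' : ℝ} (hε : 0 < ε) (h : ε ≤ ε') (h1 : NearP ε K) :
    NearP ε' K := by
  obtain ⟨L, hL, h2, h3⟩ := h1
  exact ⟨L, hL, h2.trans (smul_sub (body_ppd hL) (by linarith) (by linarith)),
    h3.trans (smul_sub hK (by linarith) (by linarith))⟩

theorem NearP.comp {K' : Set (Fin n → ℝ)} {ε δ : ℝ} (h1 : K ⊆ (1 + δ) • K')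
    (h2 : K' ⊆ (1 + δ) • K) (h : NearP ε K) : NearP (ε + δ + ε * δ) K' := by
  obtain ⟨L, hL, h3, h4⟩ := h
  refine ⟨L, hL, ?_, ?_⟩
  · have := sub_smul_trans h2 h3
    rwa [show (1 + δ) * (1 + ε) = 1 + (ε + δ + ε * δ) by ring] at this
  · have := sub_smul_trans h4 h1
    rwa [show (1 + ε) * (1 + δ) = 1 + (ε + δ + ε * δ) by ring] at this

theorem NearP.image (T : (Fin n → ℝ) ≃ₗ[ℝ] (Fin n → ℝ)) {ε : ℝ} (h : NearP ε K) :
    NearP ε (T '' K) := by
  obtain ⟨L, hL, h3, h4⟩ := h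
  have hs : ∀ A B : Set (Fin n → ℝ), A ⊆ (1 + ε) • B → T '' A ⊆ (1 + ε) • (T '' B) := by
    rintro A B hAB _ ⟨x, hx, rfl⟩
    obtain ⟨y, hy, rfl⟩ := hAB hx
    exact ⟨T y, ⟨y, hy, rfl⟩, (map_smul T (1 + ε) y).symm⟩
  exact ⟨T '' L, (ppd_image T).2 hL, hs _ _ h3, hs _ _ h4⟩

theorem nearP_image (T : (Fin n → ℝ) ≃ₗ[ℝ] (Fin n → ℝ)) {ε : ℝ} : NearP ε (T '' K) ↔ NearP ε K := by
  refine ⟨fun h => ?_, NearP.image T⟩
  have h1 := NearP.image T.symm h
  have h2 : T.symm '' (T '' K) = K := by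
    rw [← Set.image_comp]
    simp
  rwa [h2] at h1

theorem far_image (T : (Fin n → ℝ) ≃ₗ[ℝ] (Fin n → ℝ)) {ε : ℝ} : Far ε (T '' K) ↔ Far ε K := by
  unfold Far
  simp only [nearP_image]

theorem nearP_ppd (hK : Ppd K) {ε : ℝ} (hε : 0 < ε) : NearP ε K := by
  have hb := body_ppd hK
  have h1 : K ⊆ (1 + ε) • K := by
    have := smul_sub hb one_pos (by linarith : (1 : ℝ) ≤ 1 + ε)
    rwa [one_smul] at this
  exact ⟨K, hK, h1, h1⟩

theorem not_far_ppd (hK : Ppd K) {ε : ℝ} (hε : 0 < ε) : ¬ Far ε K := fun h =>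
  h (ε / 2) (by positivity) (by linarith) (nearP_ppd hK (by positivity))

/-- room for a further small error -/
theorem exists_room {ε ε' : ℝ} (hε : 0 < ε') (h : ε' < ε) :
    ∃ δ : ℝ, 0 < δ ∧ ε' + δ + ε' * δ < ε := by
  refine ⟨(ε - ε') / (2 * (1 + ε')), ?_, ?_⟩
  · have : 0 < ε - ε' := by linarith
    positivity
  · have h1 : (ε - ε') / (2 * (1 + ε')) * (1 + ε') = (ε - ε') / 2 := by
      field_simp
    nlinarith

theorem mem_smul_pol (a : Fin N → Fin n → ℝ) {c : ℝ} (hc : 0 < c) (x : Fin n → ℝ) :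
    x ∈ c • pol a ↔ ga a x ≤ c := by
  rw [Set.mem_smul_set_iff_inv_smul_mem₀ hc.ne', mem_pol_iff, ga_smul, abs_of_pos (inv_pos.2 hc),
    inv_mul_le_iff₀ hc, mul_one]

theorem pol_near {a : Fin N → Fin n → ℝ} (ha : Spn a) {δ : ℝ} (hδ : 0 < δ) :
    ∀ᶠ b in 𝓝 a, Spn b ∧ pol b ⊆ (1 + δ) • pol a ∧ pol a ⊆ (1 + δ) • pol b := by
  obtain ⟨c, hc, δ₀, hδ₀, hlow⟩ := ga_lower_nhds ha
  obtain ⟨δ₁, hδ₁, hsp⟩ := spn_nhds ha
  have h1 : 0 < min (min δ₀ δ₁) (c * δ / (n + 1)) := lt_min (lt_min hδ₀ hδ₁) (by positivity)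
  filter_upwards [Metric.ball_mem_nhds a h1] with b hb
  rw [mem_ball_iff_norm] at hb
  have hb0 : ‖b - a‖ < δ₀ := hb.trans_le ((min_le_left _ _).trans (min_le_left _ _))
  have hb1 : ‖b - a‖ < δ₁ := hb.trans_le ((min_le_left _ _).trans (min_le_right _ _))
  have hb2 : ‖b - a‖ < c * δ / (n + 1) := hb.trans_le (min_le_right _ _)
  have hla := hlow a (by rw [sub_self, norm_zero]; exact hδ₀)
  have hlb := hlow b hb0
  have hn : (n : ℝ) * ‖a - b‖ ≤ c * δ := by
    rw [norm_sub_rev]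
    have hn0 : (0 : ℝ) ≤ n := Nat.cast_nonneg n
    have h3 : (n : ℝ) * ‖b - a‖ ≤ (n + 1) * (c * δ / (n + 1)) := by
      gcongr
      linarith
    have h4 : ((n : ℝ) + 1) * (c * δ / (n + 1)) = c * δ := by field_simp
    linarith
  have hdx : ∀ x : Fin n → ℝ, |ga a x - ga b x| ≤ δ * (c * ‖x‖) := by
    intro x
    refine (ga_lip a b x).trans ?_
    have := mul_le_mul_of_nonneg_right hn (norm_nonneg x)
    linarith
  refine ⟨hsp b hb1, fun x hx => ?_, fun x hx => ?_⟩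
  · rw [mem_smul_pol a (by linarith)]
    rw [mem_pol_iff] at hx
    have h5 := (abs_le.1 (hdx x)).2
    have h6 := hlb x
    have h7 : c * ‖x‖ ≤ 1 := h6.trans hx
    nlinarith
  · rw [mem_smul_pol b (by linarith)]
    rw [mem_pol_iff] at hx
    have h5 := (abs_le.1 (hdx x)).1
    have h6 := hla x
    have h7 : c * ‖x‖ ≤ 1 := h6.trans hx
    nlinarith

theorem not_far_nhds {a : Fin N → Fin n → ℝ} (ha : Spn a) {ε : ℝ} (h : ¬ Far ε (pol a)) :
    ∀ᶠ b in 𝓝 a, ¬ Far ε (pol b) := by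
  unfold Far at h
  push Not at h
  obtain ⟨ε', h1, h2, h3⟩ := h
  obtain ⟨δ, hδ, hδ2⟩ := exists_room h1 h2
  filter_upwards [pol_near ha hδ] with b hb hfar
  exact hfar (ε' + δ + ε' * δ) (by positivity) hδ2 (h3.comp hb.2.2 hb.2.1)

/-- normal form of a spanning family (`SL3.exists_normal`, with the linear map) -/
theorem exists_normal' {b : Fin N → Fin n → ℝ} (hb : Spn b) :
    ∃ (b' : Fin N → Fin n → ℝ) (σ : Fin n → Fin N) (T : (Fin n → ℝ) ≃ₗ[ℝ] (Fin n → ℝ)),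
      T '' pol b = pol b' ∧
      (∀ i k, |b' i k| ≤ 1) ∧ ∀ k, b' (σ k) = Pi.single k 1 := by
  classical
  obtain ⟨σ₀, hσ₀⟩ := exists_det_ne hb
  have : Nonempty (Fin n → Fin N) := ⟨σ₀⟩
  obtain ⟨σ, hσ⟩ := Finite.exists_max fun σ : Fin n → Fin N => |(Matrix.of fun k => b (σ k)).det|
  set A : Matrix (Fin n) (Fin n) ℝ := Matrix.of fun k => b (σ k) with hA
  have hdet : 0 < |A.det| := (abs_pos.2 hσ₀).trans_le (hσ σ₀)
  have hdet0 : A.det ≠ 0 := abs_pos.1 hdet
  have hunit : IsUnit A.det := isUnit_iff_ne_zero.2 hdet0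
  let T : (Fin n → ℝ) ≃ₗ[ℝ] (Fin n → ℝ) := LinearEquiv.ofIsUnitDet
    (f := Matrix.toLin' A) (v := Pi.basisFun ℝ (Fin n)) (v' := Pi.basisFun ℝ (Fin n))
    (by simpa [LinearMap.toMatrix_eq_toMatrix'] using hunit)
  have hT : ∀ x k, T x k = b (σ k) ⬝ᵥ x := by
    intro x k
    show Matrix.toLin' A x k = _
    rw [Matrix.toLin'_apply]
    rfl
  obtain ⟨b', h1, h2, h3, -⟩ := pol_image T b
  have h4 : ∀ k, b' (σ k) = Pi.single k 1 := by
    intro k
    funext j
    have h5 := h2 (σ k) (T.symm (Pi.single j 1))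
    rw [LinearEquiv.apply_symm_apply, dotProduct_single_one, ← hT, LinearEquiv.apply_symm_apply] at h5
    rw [h5, Pi.single_apply, Pi.single_apply]
    simp [eq_comm]
  have h5 : ∀ i, b i = ∑ k, b' i k • A k := by
    intro i
    funext j
    have h6 := h2 i (Pi.single j 1)
    rw [dotProduct_single_one] at h6
    rw [← h6, Finset.sum_apply]
    unfold dotProduct
    apply Finset.sum_congr rfl
    intro k _
    rw [hT, dotProduct_single_one, Pi.smul_apply, smul_eq_mul]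
    rfl
  refine ⟨b', σ, T, h1, ?_, h4⟩
  intro i j
  have h6 : (A.updateRow j (b i)).det = b' i j * A.det := by
    rw [h5 i, Matrix.det_updateRow_sum, smul_eq_mul]
  have h7 : A.updateRow j (b i) = Matrix.of fun k => b (Function.update σ j i k) := by
    ext k l
    rw [Matrix.updateRow_apply, Matrix.of_apply]
    by_cases hk : k = j
    · subst hk
      rw [if_pos rfl, Function.update_self]
    · rw [if_neg hk, Function.update_of_ne hk]
      rfl
  have h8 := hσ (Function.update σ j i)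
  rw [← h7, h6, abs_mul] at h8
  by_contra h9
  push Not at h9
  have := mul_lt_mul_of_pos_right h9 hdet
  rw [one_mul] at this
  exact absurd h8 (not_le.2 this)

/-- maximisers in the class of polytopes far from parallelepipeds -/
theorem exists_max_far {ε : ℝ} (hn : 0 < n)
    (hne : ∃ a : Fin N → Fin n → ℝ, Spn a ∧ Far ε (pol a)) :
    ∃ a : Fin N → Fin n → ℝ, Spn a ∧ Far ε (pol a) ∧
      ∀ b : Fin N → Fin n → ℝ, Spn b → Far ε (pol b) → rhoG (pol b) ≤ rhoG (pol a) := by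
  classical
  let C : (Fin n → Fin N) → Set (Fin N → Fin n → ℝ) := fun σ =>
    {b | (∀ i k, |b i k| ≤ 1) ∧ ∀ k, b (σ k) = Pi.single k 1}
  have hspn : ∀ σ, ∀ b ∈ C σ, Spn b := by
    intro σ b hb
    rw [spn_iff]
    intro x hx
    funext k
    have h1 := hx (σ k)
    rw [hb.2 k, single_one_dotProduct] at h1
    exact h1
  have hcpt : ∀ σ, IsCompact (C σ) := by
    intro σ
    have hcl : IsClosed (C σ) := by
      have h1 : C σ = (⋂ i, ⋂ k, {b : Fin N → Fin n → ℝ | |b i k| ≤ 1}) ∩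
          ⋂ k, {b : Fin N → Fin n → ℝ | b (σ k) = Pi.single k 1} := by
        ext b
        simp [C]
      rw [h1]
      refine IsClosed.inter (isClosed_iInter fun i => isClosed_iInter fun k => ?_)
        (isClosed_iInter fun k => ?_)
      · exact isClosed_le (by fun_prop) continuous_const
      · exact isClosed_eq (by fun_prop) continuous_const
    refine Metric.isCompact_of_isClosed_isBounded hcl
      (Metric.isBounded_closedBall.subset (s := C σ) (t := Metric.closedBall 0 1) fun b hb => ?_)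
    rw [mem_closedBall_zero_iff, pi_norm_le_iff_of_nonneg zero_le_one]
    intro i
    rw [pi_norm_le_iff_of_nonneg zero_le_one]
    intro k
    exact hb.1 i k
  have hcpt' : IsCompact (⋃ σ, C σ) := isCompact_iUnion hcpt
  set D : Set (Fin N → Fin n → ℝ) := {b | b ∈ (⋃ σ, C σ) ∧ Far ε (pol b)} with hD
  have hspnD : ∀ b ∈ ⋃ σ, C σ, Spn b := by
    intro b hb
    obtain ⟨σ, hσ⟩ := mem_iUnion.1 hb
    exact hspn σ b hσ
  have hDcl : IsClosed D := by
    refine isClosed_of_closure_subset fun b hb => ?_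
    have h1 : b ∈ ⋃ σ, C σ := by
      have h2 : closure D ⊆ closure (⋃ σ, C σ) := closure_mono fun x hx => hx.1
      rw [hcpt'.isClosed.closure_eq] at h2
      exact h2 hb
    refine ⟨h1, ?_⟩
    by_contra hcon
    have h3 := not_far_nhds (hspnD b h1) hcon
    obtain ⟨c, hc1, hc2⟩ := mem_closure_iff_nhds.1 hb _ h3
    exact hc1 hc2.2
  have hDc : IsCompact D := hcpt'.of_isClosed_subset hDcl fun b hb => hb.1
  have hDne : D.Nonempty := by
    obtain ⟨a, ha, hfar⟩ := hne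
    obtain ⟨b', τ, T, h1, h2, h3⟩ := exists_normal' ha
    refine ⟨b', mem_iUnion.2 ⟨τ, h2, h3⟩, ?_⟩
    rw [← h1, far_image]
    exact hfar
  have hcont : ContinuousOn (fun b : Fin N → Fin n → ℝ => rhoG (pol b)) D := by
    intro b hb
    exact (rhoG_ctn hn (hspnD b hb.1)).continuousWithinAt
  obtain ⟨a, ha, hmax⟩ := hDc.exists_isMaxOn hDne hcont
  refine ⟨a, hspnD a ha.1, ha.2, fun b hb hfar => ?_⟩
  obtain ⟨b', τ, T, h1, h2, h3⟩ := exists_normal' hb
  have h4 : rhoG (pol b') = rhoG (pol b) := by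
    rw [← h1]
    exact rhoG_image T (body_pol hb).compact
  rw [← h4]
  refine isMaxOn_iff.1 hmax b' ⟨mem_iUnion.2 ⟨τ, h2, h3⟩, ?_⟩
  rw [← h1, far_image]
  exact hfar

end Pool.Agent.SL6
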