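import Pool.Agent.SL6.Main

/-!
# SL6 / Fin: from local maximisers to the `L^p`-Mahler inequality for small `p`
-/

set_option autoImplicit false

open MeasureTheory Set Filter
open Pool.Agent.Helper15.LpM Pool.Agent.LPZ Pool.Agent.SPE Pool.Agent.SL3
open scoped Topology Pointwise

namespace Pool.Agent.SL6

theorem small_p_of_lcrit {n : ℕ} (hn : 1 ≤ n) (N₀ : ℕ)
    (H₄ : ∀ N ≤ N₀, ∀ a : Fin N → Fin n → ℝ, Spn a →
      rhoG (pol a) ≤ 1 ∧ (rhoG (pol a) = 1 → Ppd (pol a)))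
    (H₅ : ∃ δ : ℝ, 0 < δ ∧ ∀ N, N₀ < N → ∀ a : Fin N → Fin n → ℝ, LCrit a →
      rhoG (pol a) ≤ 1 - δ) :
    ∃ p₁ : ℝ, 0 < p₁ ∧ ∀ p : ℝ, 0 < p → p ≤ p₁ → ∀ K : Set (Fin n → ℝ),
      Convex ℝ K → IsCompact K → (interior K).Nonempty → (∀ x ∈ K, -x ∈ K) →
        lpMahler p (cube n) ≤ lpMahler p K ∧
        (lpMahler p K = lpMahler p (cube n) ↔
          ∃ S : (Fin n → ℝ) ≃ₗ[ℝ] (Fin n → ℝ), K = S '' cube n) :=
  RSL.small_p_all hn fun _ hK => all_of_lcrit hn N₀ H₄ H₅ hK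

end Pool.Agent.SL6
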