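import Pool.Agent.SPE.TrJ

/-!
# SL6 / LimA: lower bound for `M_p(Q_n)`

`S t ≤ exp(t²/6)`, so `J q ≥ √(6π/q)` and `M_p(Q_n) = (2 J(1/p)/p)^n ≥ (2 √(6πp)/p)^n`.
-/

set_option autoImplicit false

namespace Pool.Agent.SL6

open MeasureTheory Set Real Filter
open Pool.Agent.Helper15.LpM
open Pool.Agent.SPE (lpMahler_cube_eq)

theorem S_le_gauss (t : ℝ) : S t ≤ Real.exp (t ^ 2 / 6) := by
  rw [← S_abs, ← sq_abs]
  have hd : ∀ x : ℝ, HasDerivAt (fun x => S x * Real.exp (-(x ^ 2 / 6)))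
      (deriv S x * Real.exp (-(x ^ 2 / 6)) + S x * (Real.exp (-(x ^ 2 / 6)) * (-(x / 3)))) x := by
    intro x
    have h1 : HasDerivAt (fun x : ℝ => -(x ^ 2 / 6)) (-(x / 3)) x := by
      have h2 := (((hasDerivAt_id x).pow 2).div_const 6).neg
      refine h2.congr_deriv ?_
      simp
      ring
    exact (differentiable_S x).hasDerivAt.mul h1.exp
  have hanti : AntitoneOn (fun x : ℝ => S x * Real.exp (-(x ^ 2 / 6))) (Set.Ici 0) := by
    refine antitoneOn_of_deriv_nonpos (convex_Ici 0)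
      (fun x _ => (hd x).continuousAt.continuousWithinAt)
      (fun x _ => (hd x).differentiableAt.differentiableWithinAt) ?_
    intro x hx
    rw [interior_Ici, Set.mem_Ioi] at hx
    rw [(hd x).deriv]
    have h1 : x * deriv S x ≤ x * (x / 3 * S x) := by
      rw [mul_deriv_S]
      have h2 := cosh_le_sq x
      nlinarith
    have h3 : deriv S x ≤ x / 3 * S x := le_of_mul_le_mul_left h1 hx
    have h4 : 0 < Real.exp (-(x ^ 2 / 6)) := Real.exp_pos _
    nlinarith
  have h6 := hanti (Set.mem_Ici.2 le_rfl) (Set.mem_Ici.2 (abs_nonneg t)) (abs_nonneg t)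
  simp only [S_zero] at h6
  norm_num at h6
  rw [Real.exp_neg, ← div_eq_mul_inv, div_le_one (Real.exp_pos _)] at h6
  simpa [sq_abs] using h6

theorem J_ge {q : ℝ} (hq : 0 < q) : √(6 * π / q) ≤ J q := by
  have h1 : ∫ t : ℝ, Real.exp (-(q / 6) * t ^ 2) = √(6 * π / q) := by
    rw [integral_gaussian]
    congr 1
    field_simp
  rw [← h1]
  unfold J
  refine integral_mono (integrable_exp_neg_mul_sq (by positivity)) (integrable_Srpow hq) fun t => ?_
  have h2 := Real.rpow_le_rpow_of_nonpos (S_pos t) (S_le_gauss t) (z := -q) (by linarith)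
  rw [← Real.exp_mul] at h2
  refine le_trans (le_of_eq ?_) h2
  congr 1
  ring

theorem cube_low {n : ℕ} {p : ℝ} (hp : 0 < p) :
    ENNReal.ofReal ((2 * √(6 * π * p) / p) ^ n) ≤ lpMahler p (cube n) := by
  rw [lpMahler_cube_eq hp]
  refine ENNReal.ofReal_le_ofReal (pow_le_pow_left₀ (by positivity) ?_ n)
  have h1 := J_ge (q := 1 / p) (by positivity)
  have e : 6 * π / (1 / p) = 6 * π * p := by
    field_simp
  rw [e] at h1
  gcongr

end Pool.Agent.SL6
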