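import Pool.Agent.SL6.LimA
import Pool.Agent.RSL.Smp

/-!
# SL6 / LimB: upper bound for `M_p(K)` as `p → 0`, `K` in isotropic position

`EK K y ≥ V (1 + |y|²/2)`, so `M_p(K) ≤ V p^(-n) ∫ (1 + |y|²/2)^(-1/p) dy = V (√p/p)^n G(1/p)`,
`G(q) = ∫ (1 + |z|²/(2q))^(-q) dz → √(2π)^n`.
-/

set_option autoImplicit false

namespace Pool.Agent.SL6

open MeasureTheory Set Real Filter
open Pool.Agent.Helper15.LpM Pool.Agent.LPZ
open scoped Topology

/-- `|z|²` -/
noncomputable def sqn {n : ℕ} (z : Fin n → ℝ) : ℝ := ∑ i, z i ^ 2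

theorem sqn_nonneg {n : ℕ} (z : Fin n → ℝ) : 0 ≤ sqn z := Finset.sum_nonneg fun _ _ => sq_nonneg _

theorem continuous_sqn {n : ℕ} : Continuous (sqn (n := n)) := by
  unfold sqn
  fun_prop

theorem norm_sq_le_sqn {n : ℕ} (z : Fin n → ℝ) : ‖z‖ ^ 2 ≤ sqn z := by
  have h1 : ‖z‖ ≤ √(sqn z) := by
    refine (pi_norm_le_iff_of_nonneg (Real.sqrt_nonneg _)).2 fun i => ?_
    rw [Real.norm_eq_abs]
    refine Real.abs_le_sqrt ?_
    exact Finset.single_le_sum (f := fun i => z i ^ 2) (fun _ _ => sq_nonneg _) (Finset.mem_univ i)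
  calc ‖z‖ ^ 2 ≤ √(sqn z) ^ 2 := pow_le_pow_left₀ (norm_nonneg _) h1 2
    _ = sqn z := Real.sq_sqrt (sqn_nonneg z)

theorem sqn_smul {n : ℕ} (c : ℝ) (z : Fin n → ℝ) : sqn (c • z) = c ^ 2 * sqn z := by
  unfold sqn
  rw [Finset.mul_sum]
  refine Finset.sum_congr rfl fun i _ => ?_
  rw [Pi.smul_apply, smul_eq_mul, mul_pow]

private theorem cosh_ge30 (u : ℝ) : 2 + u ^ 2 ≤ exp u + exp (-u) := by
  have h1 : exp u + exp (-u) = 2 * Real.cosh u := by
    rw [Real.cosh_eq]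
    ring
  have h2 : Real.cosh u = 1 + 2 * Real.sinh (u / 2) ^ 2 := by
    have h3 := Real.cosh_two_mul (u / 2)
    have h4 := Real.cosh_sq (u / 2)
    rw [show 2 * (u / 2) = u by ring] at h3
    rw [h3, h4]
    ring
  have h5 : (u / 2) ^ 2 ≤ Real.sinh (u / 2) ^ 2 := by
    rw [← sq_abs, ← sq_abs (Real.sinh _)]
    refine pow_le_pow_left₀ (abs_nonneg _) ?_ 2
    rw [Real.abs_sinh]
    exact Real.self_le_sinh_iff.2 (abs_nonneg _)
  rw [h1, h2]
  nlinarith

private theorem refl30 {n : ℕ} {K : Set (Fin n → ℝ)} (hK : IsSymmBody K)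
    (f : (Fin n → ℝ) → ℝ) : ∫ x in K, f x = ∫ x in K, f (-x) := by
  rw [← integral_indicator hK.compact.measurableSet,
    ← integral_neg_eq_self (fun x => K.indicator f x),
    ← integral_indicator hK.compact.measurableSet]
  congr 1
  ext x
  by_cases hx : x ∈ K
  · rw [indicator_of_mem (hK.symm x hx), indicator_of_mem hx]
  · have : -x ∉ K := fun h => hx (by simpa using hK.symm _ h)
    rw [indicator_of_notMem this, indicator_of_notMem hx]

theorem EK_ge {n : ℕ} {K : Set (Fin n → ℝ)} (hK : IsSymmBody K)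
    (hz : ∀ z : Fin n → ℝ, (volume K).toReal * sqn z ≤ ∫ x in K, (x ⬝ᵥ z) ^ 2)
    (y : Fin n → ℝ) : (volume K).toReal * (1 + sqn y / 2) ≤ EK K y := by
  have hi : ∀ {f : (Fin n → ℝ) → ℝ}, Continuous f → IntegrableOn f K := fun hf =>
    hf.continuousOn.integrableOn_compact hK.compact
  have hc : Continuous fun x : Fin n → ℝ => x ⬝ᵥ y := continuous_dot_right y
  have h1 : ∫ x in K, (2 + (x ⬝ᵥ y) ^ 2) ≤ EK K y + EK K y := by
    have e1 : EK K y + EK K y = ∫ x in K, (exp (x ⬝ᵥ y) + exp (-(x ⬝ᵥ y))) := by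
      rw [integral_add (hi (by fun_prop)) (hi (by fun_prop))]
      congr 1
      unfold EK
      rw [refl30 hK]
      simp only [neg_dotProduct]
    rw [e1]
    refine setIntegral_mono_on (hi (by fun_prop)) (hi (by fun_prop)) hK.compact.measurableSet ?_
    intro x hx
    exact cosh_ge30 _
  have h2 : ∫ x in K, (2 + (x ⬝ᵥ y) ^ 2) = (volume K).toReal * 2 + ∫ x in K, (x ⬝ᵥ y) ^ 2 := by
    rw [integral_add (hi (by fun_prop)) (hi (by fun_prop)), setIntegral_const, smul_eq_mul]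
    rfl
  have h3 := hz y
  rw [h2] at h1
  linarith

/-! ### the kernel `(1 + |z|²/(2q))^(-q)` -/

private theorem ker_le30 {n : ℕ} {q : ℝ} (hq : (n : ℝ) + 1 ≤ q) (z : Fin n → ℝ) :
    (1 + sqn z / 2 / q) ^ (-q) ≤
      (2 * ((n : ℝ) + 1)) ^ (((n : ℝ) + 1)) * (1 + ‖z‖ ^ 2) ^ (-(2 * ((n : ℝ) + 1)) / 2) := by
  obtain ⟨m, hm⟩ : ∃ m : ℝ, m = (n : ℝ) + 1 := ⟨_, rfl⟩
  rw [← hm] at hq ⊢
  have hm1 : 1 ≤ m := by
    rw [hm]
    have : (0 : ℝ) ≤ n := Nat.cast_nonneg n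
    linarith
  have hm0 : 0 < m := by linarith
  have hq0 : 0 < q := by linarith
  have hs := sqn_nonneg z
  have h0 : 0 ≤ sqn z / 2 / q := by positivity
  -- monotone in q
  have h1 : (1 + sqn z / 2 / m) ^ m ≤ (1 + sqn z / 2 / q) ^ q := by
    have h2 : 1 + q / m * (sqn z / 2 / q) ≤ (1 + sqn z / 2 / q) ^ (q / m) :=
      one_add_mul_self_le_rpow_one_add (by linarith) ((one_le_div hm0).2 hq)
    have h3 : q / m * (sqn z / 2 / q) = sqn z / 2 / m := by field_simp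
    rw [h3] at h2
    have h4 := Real.rpow_le_rpow (by positivity) h2 hm0.le
    rw [← Real.rpow_mul (by positivity)] at h4
    rwa [div_mul_cancel₀ _ hm0.ne'] at h4
  have h5 : (1 + ‖z‖ ^ 2) / (2 * m) ≤ 1 + sqn z / 2 / m := by
    rw [div_le_iff₀ (by positivity)]
    have h6 : (1 + sqn z / 2 / m) * (2 * m) = 2 * m + sqn z := by
      field_simp
    rw [h6]
    have := norm_sq_le_sqn z
    linarith
  have h7 : ((1 + ‖z‖ ^ 2) / (2 * m)) ^ m ≤ (1 + sqn z / 2 / q) ^ q :=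
    (Real.rpow_le_rpow (by positivity) h5 hm0.le).trans h1
  have h8 : -(2 * m) / 2 = -m := by ring
  rw [h8, Real.rpow_neg (by positivity), Real.rpow_neg (by positivity)]
  have h9 : (2 * m) ^ m * ((1 + ‖z‖ ^ 2) ^ m)⁻¹ = (((1 + ‖z‖ ^ 2) / (2 * m)) ^ m)⁻¹ := by
    rw [Real.div_rpow (by positivity) (by positivity), inv_div, div_eq_mul_inv]
  rw [h9]
  exact inv_anti₀ (by positivity) h7

private theorem ker_cont30 {n : ℕ} {q : ℝ} (hq : 0 < q) :
    Continuous (fun z : Fin n → ℝ => (1 + sqn z / 2 / q) ^ (-q)) := by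
  refine Continuous.rpow_const (by have := continuous_sqn (n := n); fun_prop) fun z => Or.inl ?_
  have := sqn_nonneg z
  positivity

private theorem dom_int30 (n : ℕ) : Integrable (fun z : Fin n → ℝ =>
    (2 * ((n : ℝ) + 1)) ^ (((n : ℝ) + 1)) * (1 + ‖z‖ ^ 2) ^ (-(2 * ((n : ℝ) + 1)) / 2)) := by
  refine (integrable_rpow_neg_one_add_norm_sq ?_).const_mul _
  rw [Module.finrank_fin_fun]
  have : (0 : ℝ) ≤ n := Nat.cast_nonneg n
  linarith

theorem ker_int {n : ℕ} {q : ℝ} (hq : (n : ℝ) + 1 ≤ q) :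
    Integrable (fun z : Fin n → ℝ => (1 + sqn z / 2 / q) ^ (-q)) := by
  have hn : (0 : ℝ) ≤ n := Nat.cast_nonneg n
  have hq0 : 0 < q := by linarith
  refine Integrable.mono' (dom_int30 n) (ker_cont30 hq0).aestronglyMeasurable
    (Filter.Eventually.of_forall fun z => ?_)
  have := sqn_nonneg z
  rw [Real.norm_of_nonneg (Real.rpow_nonneg (by positivity) _)]
  exact ker_le30 hq z

theorem gauss_int (n : ℕ) : ∫ z : Fin n → ℝ, Real.exp (-(sqn z / 2)) = √(2 * π) ^ n := by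
  have h1 : ∀ z : Fin n → ℝ, Real.exp (-(sqn z / 2)) = ∏ i, Real.exp (-(1 / 2) * z i ^ 2) := by
    intro z
    rw [← Real.exp_sum]
    congr 1
    unfold sqn
    rw [← Finset.mul_sum]
    ring
  simp only [h1]
  rw [integral_fintype_prod_volume_eq_prod (fun _ : Fin n => fun t : ℝ => Real.exp (-(1 / 2) * t ^ 2))]
  rw [Finset.prod_const, Finset.card_univ, Fintype.card_fin, integral_gaussian]
  congr 2
  ring

theorem ker_lim (n : ℕ) :
    Tendsto (fun q : ℝ => ∫ z : Fin n → ℝ, (1 + sqn z / 2 / q) ^ (-q)) atTop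
      (𝓝 (√(2 * π) ^ n)) := by
  rw [← gauss_int n]
  refine tendsto_integral_filter_of_dominated_convergence _ ?_ ?_ (dom_int30 n) ?_
  · filter_upwards [eventually_gt_atTop 0] with q hq
    exact (ker_cont30 hq).aestronglyMeasurable
  · filter_upwards [eventually_ge_atTop ((n : ℝ) + 1)] with q hq
    refine Filter.Eventually.of_forall fun z => ?_
    have hn : (0 : ℝ) ≤ n := Nat.cast_nonneg n
    have hq0 : 0 < q := by linarith
    have := sqn_nonneg z
    rw [Real.norm_of_nonneg (Real.rpow_nonneg (by positivity) _)]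
    exact ker_le30 hq z
  · refine Filter.Eventually.of_forall fun z => ?_
    have h2 := (Real.tendsto_one_add_div_rpow_exp (sqn z / 2)).inv₀ (Real.exp_pos _).ne'
    rw [← Real.exp_neg] at h2
    refine h2.congr' ?_
    filter_upwards [eventually_gt_atTop 0] with q hq
    have := sqn_nonneg z
    rw [Real.rpow_neg (by positivity)]

/-- the upper bound -/
theorem mahler_up {n : ℕ} {K : Set (Fin n → ℝ)} (hK : IsSymmBody K)
    (hz : ∀ z : Fin n → ℝ, (volume K).toReal * sqn z ≤ ∫ x in K, (x ⬝ᵥ z) ^ 2)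
    {p : ℝ} (hp : 0 < p) (hpn : (n : ℝ) + 1 ≤ 1 / p) :
    lpMahler p K ≤ ENNReal.ofReal ((volume K).toReal * (√p / p) ^ n *
      ∫ z : Fin n → ℝ, (1 + sqn z / 2 / (1 / p)) ^ (-(1 / p))) := by
  have hV := hK.volume_pos
  rw [lpMahler_eq hp hK.compact hV]
  set V := (volume K).toReal with hVd
  obtain ⟨q, hq⟩ : ∃ q, q = 1 / p := ⟨_, rfl⟩
  have hq0 : 0 < q := by
    rw [hq]
    positivity
  rw [← hq] at hpn ⊢
  have hpt : ∀ y : Fin n → ℝ, EK K y ^ (-q) ≤ V ^ (-q) * (1 + sqn y / 2) ^ (-q) := by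
    intro y
    have := sqn_nonneg y
    rw [← Real.mul_rpow hV.le (by positivity)]
    exact Real.rpow_le_rpow_of_nonpos (by positivity) (EK_ge hK hz y) (by linarith)
  -- scaling
  have hsc : ∀ y : Fin n → ℝ, (1 + sqn y / 2) ^ (-q) =
      (fun z : Fin n → ℝ => (1 + sqn z / 2 / q) ^ (-q)) (√q • y) := by
    intro y
    show _ = (1 + sqn (√q • y) / 2 / q) ^ (-q)
    rw [sqn_smul, Real.sq_sqrt hq0.le]
    congr 2
    field_simp
  have hsq : 0 < √q := Real.sqrt_pos.2 hq0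
  have hint : Integrable fun y : Fin n → ℝ => (1 + sqn y / 2) ^ (-q) := by
    simp only [hsc]
    exact (ker_int hpn).comp_smul hsq.ne'
  have hI : ∫ y : Fin n → ℝ, (1 + sqn y / 2) ^ (-q) =
      (√q ^ n)⁻¹ * ∫ z : Fin n → ℝ, (1 + sqn z / 2 / q) ^ (-q) := by
    have h := Measure.integral_comp_smul (volume : Measure (Fin n → ℝ))
      (fun z : Fin n → ℝ => (1 + sqn z / 2 / q) ^ (-q)) (√q)
    rw [Module.finrank_fin_fun, smul_eq_mul, abs_of_pos (by positivity)] at h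
    rw [← h]
    refine integral_congr_ae (Filter.Eventually.of_forall fun y => ?_)
    exact hsc y
  have hL : ∫⁻ y, ENNReal.ofReal (EK K y ^ (-q)) ≤
      ENNReal.ofReal (V ^ (-q) * ((√q ^ n)⁻¹ * ∫ z : Fin n → ℝ, (1 + sqn z / 2 / q) ^ (-q))) := by
    calc ∫⁻ y, ENNReal.ofReal (EK K y ^ (-q))
        ≤ ∫⁻ y : Fin n → ℝ, ENNReal.ofReal (V ^ (-q) * (1 + sqn y / 2) ^ (-q)) :=
          lintegral_mono fun y => ENNReal.ofReal_le_ofReal (hpt y)
      _ = ENNReal.ofReal (∫ y : Fin n → ℝ, V ^ (-q) * (1 + sqn y / 2) ^ (-q)) := by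
          refine (ofReal_integral_eq_lintegral_ofReal (hint.const_mul _) ?_).symm
          refine Filter.Eventually.of_forall fun y => ?_
          have := sqn_nonneg y
          show (0 : ℝ) ≤ V ^ (-q) * (1 + sqn y / 2) ^ (-q)
          positivity
      _ = _ := by rw [integral_const_mul, hI]
  refine (mul_le_mul_right (mul_le_mul_right hL _) _).trans (le_of_eq ?_)
  rw [← ENNReal.ofReal_mul (abs_nonneg _), ← ENNReal.ofReal_mul (by positivity)]
  congr 1
  have e1 : V ^ (1 + q) * V ^ (-q) = V := by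
    rw [← rpow_add hV]
    have : 1 + q + -q = 1 := by ring
    rw [this, rpow_one]
  have e2 : |(p ^ n)⁻¹| = (p ^ n)⁻¹ := abs_of_pos (by positivity)
  have e3 : (√q ^ n)⁻¹ = √p ^ n := by
    rw [hq, one_div, Real.sqrt_inv, inv_pow, inv_inv]
  rw [e2, e3, div_pow]
  calc V ^ (1 + q) * ((p ^ n)⁻¹ * (V ^ (-q) * (√p ^ n *
        ∫ z : Fin n → ℝ, (1 + sqn z / 2 / q) ^ (-q))))
      = (V ^ (1 + q) * V ^ (-q)) * (√p ^ n / p ^ n) *
        ∫ z : Fin n → ℝ, (1 + sqn z / 2 / q) ^ (-q) := by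
        rw [div_eq_mul_inv]
        ring
    _ = _ := by rw [e1]

end Pool.Agent.SL6
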