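import Pool.Agent.SL6.LimB

/-!
# SL6 / Rig: rigidity of parallelepipeds for the sharp slicing inequality

`kap_rh_le`: if `κ M_p(Q_n) ≤ M_p(K)` for all `p > 0` then `κ² rh K ≤ 1` (let `p → 0`).  `near_rigid`: with the stability of
`uniform_local` (`κ = 1 + c t`, `t = 1 - |K| / |P|`, `P` the parallelepiped of least volume containing `K`): bodies near a
parallelepiped have `rh K ≤ 1`, with equality only for parallelepipeds.
-/

set_option autoImplicit false

namespace Pool.Agent.SL6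

open MeasureTheory Set Real Filter Matrix
open Pool.Agent.Helper15.LpM Pool.Agent.LPZ Pool.Agent.RSL
open Pool.Agent.SPE (Ppd)
open scoped Topology Pointwise

variable {n : ℕ}

private theorem kap_iso30 {K : Set (Fin n → ℝ)} (hK : IsSymmBody K)
    (hiso : Mom K = Pool.Agent.LPZ.S.vol K • (1 : Matrix (Fin n) (Fin n) ℝ)) {κ : ℝ} (hκ : 0 ≤ κ)
    (H : ∀ p : ℝ, 0 < p → ENNReal.ofReal κ * lpMahler p (cube n) ≤ lpMahler p K) :
    κ ^ 2 * rh K ≤ 1 := by
  have hV0 := hK.volume_pos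
  have hVd : Pool.Agent.LPZ.S.vol K = (volume K).toReal := rfl
  have hz : ∀ z : Fin n → ℝ, (volume K).toReal * sqn z ≤ ∫ x in K, (x ⬝ᵥ z) ^ 2 := by
    intro z
    have h5 := Mom_quad hK.compact z z
    rw [hiso, Matrix.smul_mulVec, Matrix.one_mulVec, dotProduct_smul, smul_eq_mul, hVd] at h5
    have h6 : ∫ x in K, (x ⬝ᵥ z) ^ 2 = ∫ x in K, (z ⬝ᵥ x) * (z ⬝ᵥ x) := by
      congr 1
      ext x
      rw [dotProduct_comm x z, pow_two]
    rw [h6, ← h5]
    refine le_of_eq ?_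
    congr 1
    unfold sqn dotProduct
    refine Finset.sum_congr rfl fun i _ => ?_
    ring
  have hrho := rh_iso hK hiso
  rw [hVd] at hrho
  obtain ⟨V, hV⟩ : ∃ V, V = (volume K).toReal := ⟨_, rfl⟩
  rw [← hV] at hV0 hz hrho
  -- the inequality for every q
  have h1 : ∀ q : ℝ, (n : ℝ) + 1 ≤ q → κ * (2 * √(6 * π)) ^ n ≤
      V * ∫ z : Fin n → ℝ, (1 + sqn z / 2 / q) ^ (-q) := by
    intro q hq
    have hq0 : 0 < q := by
      have : (0 : ℝ) ≤ n := Nat.cast_nonneg n
      linarith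
    have hp : 0 < 1 / q := by positivity
    have hqq : 1 / (1 / q) = q := one_div_one_div q
    have h2 := mahler_up hK (by rw [← hV]; exact hz) hp (by rw [hqq]; exact hq)
    rw [hqq, ← hV] at h2
    have h3 := (mul_le_mul_right (cube_low (n := n) hp) (ENNReal.ofReal κ)).trans
      ((H (1 / q) hp).trans h2)
    rw [← ENNReal.ofReal_mul hκ] at h3
    have hI : 0 ≤ ∫ z : Fin n → ℝ, (1 + sqn z / 2 / q) ^ (-q) := by
      refine integral_nonneg fun z => ?_
      have := sqn_nonneg z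
      show (0 : ℝ) ≤ (1 + sqn z / 2 / q) ^ (-q)
      positivity
    rw [ENNReal.ofReal_le_ofReal_iff (by positivity)] at h3
    have h4 : (2 * √(6 * π * (1 / q)) / (1 / q)) ^ n =
        (2 * √(6 * π)) ^ n * (√(1 / q) / (1 / q)) ^ n := by
      rw [← mul_pow]
      congr 1
      rw [Real.sqrt_mul (by positivity)]
      ring
    rw [h4] at h3
    have h5 : 0 < (√(1 / q) / (1 / q)) ^ n := by positivity
    refine le_of_mul_le_mul_right ?_ h5
    calc κ * (2 * √(6 * π)) ^ n * (√(1 / q) / (1 / q)) ^ n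
        = κ * ((2 * √(6 * π)) ^ n * (√(1 / q) / (1 / q)) ^ n) := by ring
      _ ≤ _ := h3
      _ = _ := by ring
  have h2 : κ * (2 * √(6 * π)) ^ n ≤ V * √(2 * π) ^ n := by
    refine le_of_tendsto_of_tendsto tendsto_const_nhds ((ker_lim n).const_mul V) ?_
    filter_upwards [eventually_ge_atTop ((n : ℝ) + 1)] with q hq
    exact h1 q hq
  have h3 : (2 * √(6 * π)) ^ n = (2 * √3) ^ n * √(2 * π) ^ n := by
    rw [← mul_pow]
    congr 1
    rw [show 6 * π = 3 * (2 * π) by ring, Real.sqrt_mul (by norm_num)]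
    ring
  have h4 : 0 < √(2 * π) ^ n := by positivity
  have h5 : κ * (2 * √3) ^ n ≤ V := by
    refine le_of_mul_le_mul_right ?_ h4
    rw [h3] at h2
    linarith
  have h6 : κ ^ 2 * 12 ^ n ≤ V ^ 2 := by
    have h7 := pow_le_pow_left₀ (by positivity) h5 2
    refine le_trans (le_of_eq ?_) h7
    rw [mul_pow, ← pow_mul, mul_comm n 2, pow_mul, mul_pow, Real.sq_sqrt (by norm_num)]
    norm_num
  rw [← hrho] at h6
  have h8 : 0 < V ^ 2 := by positivity
  refine le_of_mul_le_mul_right ?_ h8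
  linarith

theorem kap_rh_le {K : Set (Fin n → ℝ)} (hK : IsSymmBody K) {κ : ℝ} (hκ : 0 ≤ κ)
    (H : ∀ p : ℝ, 0 < p → ENNReal.ofReal κ * lpMahler p (cube n) ≤ lpMahler p K) :
    κ ^ 2 * rh K ≤ 1 := by
  obtain ⟨A, hA, hiso⟩ := exists_iso hK
  have h := kap_iso30 (isSymmBody_image hA hK) hiso hκ (by
    intro p hp
    rw [lpMahler_image p hA]
    exact H p hp)
  rwa [rh_image hA hK.compact] at h

/-- the parallelepiped of least volume containing `K` -/
theorem exists_min_ppd {K : Set (Fin n → ℝ)} (hK : IsSymmBody K) :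
    ∃ M : Matrix (Fin n) (Fin n) ℝ, M.det ≠ 0 ∧ (∀ x ∈ K, M *ᵥ x ∈ cube n) ∧
      ∀ M' : Matrix (Fin n) (Fin n) ℝ, (∀ x ∈ K, M' *ᵥ x ∈ cube n) → |M'.det| ≤ |M.det| := by
  have h0 := hK.zero_mem_interior
  obtain ⟨r, hr, hrK⟩ := Metric.nhds_basis_closedBall.mem_iff.1 (mem_interior_iff_mem_nhds.1 h0)
  set A : Set (Matrix (Fin n) (Fin n) ℝ) := {M | ∀ x ∈ K, ∀ i, |(M *ᵥ x) i| ≤ 1} with hA
  have hAcl : IsClosed A := by
    have : A = ⋂ x ∈ K, ⋂ i, {M : Matrix (Fin n) (Fin n) ℝ | |(M *ᵥ x) i| ≤ 1} := by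
      ext M
      simp [hA]
    rw [this]
    refine isClosed_biInter fun x _ => isClosed_iInter fun i => ?_
    apply isClosed_le _ continuous_const
    apply Continuous.abs
    exact (continuous_apply i).comp (continuous_id.matrix_mulVec continuous_const)
  have hAb : A ⊆ Set.pi univ (fun _ => Set.pi univ (fun _ => Icc (-(1 / r)) (1 / r))) := by
    intro M hM i _ j _
    have hx : (r • (Pi.single j 1 : Fin n → ℝ)) ∈ K := by
      apply hrK
      rw [mem_closedBall_zero_iff, norm_smul, Real.norm_eq_abs, abs_of_pos hr]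
      apply mul_le_of_le_one_right hr.le
      rw [pi_norm_le_iff_of_nonneg zero_le_one]
      intro k
      by_cases hk : k = j
      · subst hk
        simp
      · simp [hk]
    have h1 := hM _ hx i
    rw [Matrix.mulVec_smul, Pi.smul_apply, smul_eq_mul, Matrix.mulVec_single_one, abs_mul,
      abs_of_pos hr] at h1
    rw [mem_Icc, ← abs_le, le_div_iff₀ hr]
    calc |M i j| * r = r * |M i j| := mul_comm _ _
      _ ≤ 1 := h1
  have hAc : IsCompact A := by
    apply IsCompact.of_isClosed_subset _ hAcl hAb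
    exact isCompact_univ_pi fun _ => isCompact_univ_pi fun _ => isCompact_Icc
  obtain ⟨R, hR, hRK⟩ : ∃ R : ℝ, 0 < R ∧ ∀ x ∈ K, ‖x‖ ≤ R := by
    obtain ⟨R, hR⟩ := hK.compact.isBounded.exists_norm_le
    exact ⟨max R 1, lt_max_of_lt_right one_pos, fun x hx => (hR x hx).trans (le_max_left _ _)⟩
  have hA0 : R⁻¹ • (1 : Matrix (Fin n) (Fin n) ℝ) ∈ A := by
    intro x hx i
    rw [Matrix.smul_mulVec, Matrix.one_mulVec, Pi.smul_apply, smul_eq_mul, abs_mul,
      abs_of_pos (inv_pos.2 hR), inv_mul_le_iff₀ hR, mul_one]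
    exact (norm_le_pi_norm x i).trans (hRK x hx)
  obtain ⟨M, hMA, hMmax⟩ := hAc.exists_isMaxOn ⟨_, hA0⟩
    (f := fun M : Matrix (Fin n) (Fin n) ℝ => |M.det|)
    (Continuous.continuousOn (continuous_id.matrix_det.abs))
  refine ⟨M, ?_, fun x hx i => hMA x hx i, fun M' hM' => hMmax (fun x hx i => hM' x hx i)⟩
  have h1 : |(R⁻¹ • (1 : Matrix (Fin n) (Fin n) ℝ)).det| ≤ |M.det| := hMmax hA0
  have h2 : 0 < |(R⁻¹ • (1 : Matrix (Fin n) (Fin n) ℝ)).det| := by
    rw [Matrix.det_smul, Matrix.det_one, mul_one]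
    positivity
  exact abs_pos.1 (h2.trans_le h1)

/-- compact convex sets with the same volume, one contained in the other -/
theorem eq_of_vol_eq {K L : Set (Fin n → ℝ)} (hK : IsClosed K) (hL : IsSymmBody L) (hKL : K ⊆ L)
    (h : volume L ≤ volume K) : K = L := by
  refine Set.Subset.antisymm hKL ?_
  have hsub : interior L ⊆ K := by
    by_contra hcon
    obtain ⟨x, hx, hxK⟩ := Set.not_subset.1 hcon
    have hopen : IsOpen (interior L ∩ Kᶜ) := isOpen_interior.inter hK.isOpen_compl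
    have hpos : 0 < volume (interior L ∩ Kᶜ) := hopen.measure_pos volume ⟨x, hx, hxK⟩
    have hdis : Disjoint K (interior L ∩ Kᶜ) := by
      rw [Set.disjoint_left]
      intro y hy hy2
      exact hy2.2 hy
    have hun : K ∪ (interior L ∩ Kᶜ) ⊆ L :=
      Set.union_subset hKL (Set.inter_subset_left.trans interior_subset)
    have h1 := measure_mono (μ := volume) hun
    rw [measure_union hdis hopen.measurableSet] at h1
    have hfin : volume K ≠ ⊤ :=
      ((measure_mono hKL).trans_lt hL.compact.measure_lt_top).ne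
    have h2 : volume K + volume (interior L ∩ Kᶜ) ≤ volume K := h1.trans h
    have h3 : volume K < volume K + volume (interior L ∩ Kᶜ) :=
      ENNReal.lt_add_right hfin hpos.ne'
    exact absurd h2 (not_le.2 h3)
  have h1 : closure (interior L) ⊆ K := closure_minimal hsub hK
  have h2 : closure (interior L) = closure L :=
    hL.convex.closure_interior_eq_closure_of_nonempty_interior ⟨0, hL.zero_mem_interior⟩
  exact subset_closure.trans (h2 ▸ h1)

theorem near_rigid (hn : 1 ≤ n) :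
    ∃ ε : ℝ, 0 < ε ∧ ∀ L : Set (Fin n → ℝ), Ppd L → ∀ K : Set (Fin n → ℝ), IsSymmBody K →
      K ⊆ (1 + ε) • L → L ⊆ (1 + ε) • K → rh K ≤ 1 ∧ (rh K = 1 → Ppd K) := by
  obtain ⟨m, rfl⟩ : ∃ m, n = m + 1 := ⟨n - 1, by omega⟩
  obtain ⟨η, c, hη, hc, H⟩ := uniform_local m
  have h0 : ∀ᶠ ε in nhds (0 : ℝ), (1 - η) * ((1 + ε) ^ (m + 1) * (1 + ε) ^ (m + 1)) < 1 := by
    have hc : ContinuousAt (fun ε : ℝ => (1 - η) * ((1 + ε) ^ (m + 1) * (1 + ε) ^ (m + 1))) 0 := by
      fun_prop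
    have h1 : (fun ε : ℝ => (1 - η) * ((1 + ε) ^ (m + 1) * (1 + ε) ^ (m + 1))) 0 < 1 := by
      simp only [add_zero, one_pow, mul_one]
      linarith
    exact hc.eventually_lt continuousAt_const h1
  obtain ⟨ε, hε1, hε⟩ := ((h0.filter_mono nhdsWithin_le_nhds).and
    (self_mem_nhdsWithin : Ioi (0 : ℝ) ∈ nhdsWithin 0 (Ioi 0))).exists
  have hε0 : (0 : ℝ) < ε := hε
  have hc0 : (0 : ℝ) < 1 + ε := by linarith
  refine ⟨ε, hε0, ?_⟩
  rintro L ⟨T, rfl⟩ K hK h1 h2
  have hT : (T.trans (LinearEquiv.smulOfNeZero ℝ (Fin (m + 1) → ℝ) (1 + ε) hc0.ne')) ''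
      cube (m + 1) = (1 + ε) • (T '' cube (m + 1)) := by
    rw [← Set.image_smul, ← Set.image_comp]
    rfl
  have hv : ∀ X : Set (Fin (m + 1) → ℝ), volume ((1 + ε) • X) =
      ENNReal.ofReal ((1 + ε) ^ (m + 1)) * volume X := by
    intro X
    rw [Measure.addHaar_smul, Module.finrank_fin_fun, abs_of_pos (pow_pos hc0 _)]
  have hvol : ENNReal.ofReal (1 - η) * volume ((1 + ε) • (T '' cube (m + 1))) ≤ volume K := by
    have h3 : volume (T '' cube (m + 1)) ≤ ENNReal.ofReal ((1 + ε) ^ (m + 1)) * volume K := by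
      rw [← hv]
      exact measure_mono h2
    calc ENNReal.ofReal (1 - η) * volume ((1 + ε) • (T '' cube (m + 1)))
        ≤ ENNReal.ofReal (1 - η) * (ENNReal.ofReal ((1 + ε) ^ (m + 1)) *
          (ENNReal.ofReal ((1 + ε) ^ (m + 1)) * volume K)) := by
          rw [hv]
          gcongr
      _ = ENNReal.ofReal ((1 - η) * ((1 + ε) ^ (m + 1) * (1 + ε) ^ (m + 1))) * volume K := by
          rw [ENNReal.ofReal_mul' (by positivity), ENNReal.ofReal_mul (by positivity)]
          ring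
      _ ≤ 1 * volume K := by
          gcongr
          rw [← ENNReal.ofReal_one]
          exact ENNReal.ofReal_le_ofReal hε1.le
      _ = volume K := one_mul _
  obtain ⟨M, hM0, hMK, hMmax⟩ := exists_min_ppd hK
  have hdM : 0 < |M.det| := abs_pos.2 hM0
  obtain ⟨V, hV⟩ : ∃ V, V = (volume K).toReal := ⟨_, rfl⟩
  have hV0 : 0 < V := by
    rw [hV]
    exact hK.volume_pos
  have hVM : V * |M.det| ≤ 2 ^ (m + 1) := by
    have h3 : (fun x : Fin (m + 1) → ℝ => M *ᵥ x) '' K ⊆ cube (m + 1) := by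
      rintro _ ⟨x, hx, rfl⟩
      exact hMK x hx
    have h4 := ENNReal.toReal_mono (isCompact_cube (m + 1)).measure_lt_top.ne
      (measure_mono (μ := volume) h3)
    rw [toReal_volume_cube] at h4
    have h5 := RSL.vol_image M K
    unfold Pool.Agent.LPZ.S.vol at h5
    rw [h5, ← hV, mul_comm] at h4
    exact h4
  obtain ⟨t, ht⟩ : ∃ t, t = 1 - V * |M.det| / 2 ^ (m + 1) := ⟨_, rfl⟩
  have ht0 : 0 ≤ t := by
    rw [ht, sub_nonneg, div_le_one (by positivity)]
    exact hVM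
  have hkap : 0 ≤ 1 + c * t := by positivity
  have key := kap_rh_le hK hkap (by
    intro p hp
    obtain ⟨-, -, S', hS1, hS2⟩ := H p hp K hK.convex hK.compact hK.nonempty_interior hK.symm
      ⟨T.trans (LinearEquiv.smulOfNeZero ℝ (Fin (m + 1) → ℝ) (1 + ε) hc0.ne'),
        by rw [hT]; exact h1, by rw [hT]; exact hvol⟩
    refine le_trans ?_ hS2
    refine mul_le_mul_left (ENNReal.ofReal_le_ofReal ?_) _
    -- the volume of the parallelepiped
    have hd1 : LinearMap.det (S' : (Fin (m + 1) → ℝ) →ₗ[ℝ] (Fin (m + 1) → ℝ)) *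
        LinearMap.det (S'.symm : (Fin (m + 1) → ℝ) →ₗ[ℝ] (Fin (m + 1) → ℝ)) = 1 :=
      LinearEquiv.det_mul_det_symm S'
    have hvS : (volume (S' '' cube (m + 1))).toReal =
        |LinearMap.det (S' : (Fin (m + 1) → ℝ) →ₗ[ℝ] (Fin (m + 1) → ℝ))| * 2 ^ (m + 1) := by
      have h := MeasureTheory.Measure.addHaar_image_linearMap
        (volume : Measure (Fin (m + 1) → ℝ))
        (S' : (Fin (m + 1) → ℝ) →ₗ[ℝ] (Fin (m + 1) → ℝ)) (cube (m + 1))
      have h2 : (S' : (Fin (m + 1) → ℝ) →ₗ[ℝ] (Fin (m + 1) → ℝ)) '' cube (m + 1) =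
        S' '' cube (m + 1) := rfl
      rw [h2] at h
      rw [h, ENNReal.toReal_mul, ENNReal.toReal_ofReal (abs_nonneg _), toReal_volume_cube]
    have hM' := hMmax (LinearMap.toMatrix' (S'.symm :
        (Fin (m + 1) → ℝ) →ₗ[ℝ] (Fin (m + 1) → ℝ))) (by
      intro x hx
      obtain ⟨y, hy, rfl⟩ := hS1 hx
      rw [LinearMap.toMatrix'_mulVec]
      show S'.symm (S' y) ∈ cube (m + 1)
      rw [LinearEquiv.symm_apply_apply]
      exact hy)
    rw [LinearMap.det_toMatrix'] at hM'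
    rw [hvS, ht, ← hV]
    set d1 := LinearMap.det (S' : (Fin (m + 1) → ℝ) →ₗ[ℝ] (Fin (m + 1) → ℝ))
    set d2 := LinearMap.det (S'.symm : (Fin (m + 1) → ℝ) →ₗ[ℝ] (Fin (m + 1) → ℝ))
    have hd3 : |d1| * |d2| = 1 := by
      rw [← abs_mul, hd1, abs_one]
    have hd4 : 0 < |d1| := by
      rw [abs_pos]
      intro h
      rw [h, zero_mul] at hd1
      exact zero_ne_one hd1
    have hd5 : V / (|d1| * 2 ^ (m + 1)) = V * |d2| / 2 ^ (m + 1) := by
      rw [div_eq_div_iff (by positivity) (by positivity)]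
      calc V * 2 ^ (m + 1) = V * (|d1| * |d2|) * 2 ^ (m + 1) := by rw [hd3, mul_one]
        _ = V * |d2| * (|d1| * 2 ^ (m + 1)) := by ring
    rw [hd5]
    have hd6 : V * |d2| / 2 ^ (m + 1) ≤ V * |M.det| / 2 ^ (m + 1) := by
      gcongr
    nlinarith [hc.le])
  have hr0 : 0 ≤ rh K := rh_nonneg hK
  have hk1 : 1 ≤ (1 + c * t) ^ 2 := one_le_pow₀ (by nlinarith [mul_nonneg hc.le ht0])
  refine ⟨by nlinarith, fun he => ?_⟩
  rw [he, mul_one] at key
  have ht1 : t = 0 := by
    have h3 : (1 + c * t) ^ 2 ≤ 1 := key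
    have h4 : 0 ≤ c * t := mul_nonneg hc.le ht0
    have h5 : c * t = 0 := by nlinarith
    rcases mul_eq_zero.1 h5 with h6 | h6
    · exact absurd h6 hc.ne'
    · exact h6
  have hVe : V * |M.det| = 2 ^ (m + 1) := by
    rw [ht1] at ht
    have h3 : V * |M.det| / 2 ^ (m + 1) = 1 := by linarith
    rwa [div_eq_one_iff_eq (by positivity)] at h3
  have hsub : (fun x : Fin (m + 1) → ℝ => M *ᵥ x) '' K ⊆ cube (m + 1) := by
    rintro _ ⟨x, hx, rfl⟩
    exact hMK x hx
  have hbM := isSymmBody_image hM0 hK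
  have heq : (fun x : Fin (m + 1) → ℝ => M *ᵥ x) '' K = cube (m + 1) := by
    refine eq_of_vol_eq hbM.compact.isClosed (isSymmBody_cube (m + 1)) hsub ?_
    have h5 := RSL.vol_image M K
    unfold Pool.Agent.LPZ.S.vol at h5
    rw [← hV, mul_comm, hVe] at h5
    refine (ENNReal.toReal_le_toReal (isCompact_cube (m + 1)).measure_lt_top.ne
      hbM.compact.measure_lt_top.ne).1 ?_
    rw [h5, toReal_volume_cube]
  rw [← ppd_mulVec hM0, heq]
  exact ⟨LinearEquiv.refl ℝ _, by simp⟩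

end Pool.Agent.SL6
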