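import Pool.Agent.SL6.Far
import Pool.Agent.SL6.Rig

/-!
# SL6 / Main: reduction of the sharp slicing inequality, WITH its equality cases, to local maximisers with a gap

`all_of_lcrit`: suppose that polytopes with at most `N₀` pairs of facets have `rhoG ≤ 1`, with equality only for
parallelepipeds, and that for some `δ > 0` no LOCAL maximiser (in the class of the polytopes with `N` pairs of facets, `N > N₀`,
all facets present) has `rhoG > 1 - δ`.  Then `rh K ≤ 1` for all symmetric bodies, with equality only for parallelepipeds.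
-/

set_option autoImplicit false

open MeasureTheory Set Filter
open Pool.Agent.Helper15.LpM Pool.Agent.LPZ Pool.Agent.SPE Pool.Agent.SL3
open scoped Topology Pointwise

namespace Pool.Agent.SL6

variable {n N : ℕ}

theorem rhoG_eq_rh (K : Set (Fin n → ℝ)) : rhoG K = RSL.rh K := rfl

/-- bodies which are far from parallelepipeds, but not too far, have `rh` bounded away from `1` -/
theorem gap_ann {ε₀ ε₁ ε₂ : ℝ} (h1 : 0 < ε₁) (h2 : 0 < ε₂) (h20 : ε₂ < ε₀)
    (hrig : ∀ K : Set (Fin n → ℝ), IsSymmBody K → NearP ε₀ K →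
      rhoG K ≤ 1 ∧ (rhoG K = 1 → Ppd K)) :
    ∃ r : ℝ, r < 1 ∧ ∀ K : Set (Fin n → ℝ), IsSymmBody K → Far ε₁ K → NearP ε₂ K →
      rhoG K ≤ r := by
  by_contra hcon
  have hk : ∀ k : ℕ, ∃ K : Set (Fin n → ℝ), IsSymmBody K ∧ Far ε₁ K ∧ NearP ε₂ K ∧
      1 - 1 / ((k : ℝ) + 1) < rhoG K := by
    intro k
    by_contra hno
    refine hcon ⟨1 - 1 / ((k : ℝ) + 1), ?_, fun K hK hf hn => ?_⟩
    · have : 0 < 1 / ((k : ℝ) + 1) := by positivity
      linarith
    · by_contra hlt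
      exact hno ⟨K, hK, hf, hn, not_le.1 hlt⟩
  choose K hK hfar hnear hrho using hk
  choose A hA hc1 hc2 using fun k => RSL.exists_norm (hK k)
  have hb : ∀ k, IsSymmBody ((fun x : Fin n → ℝ => Matrix.mulVec (A k) x) '' K k) := fun k =>
    RSL.isSymmBody_image (hA k) (hK k)
  obtain ⟨L, hL, -, -, φ, hφ, hφL⟩ := S.compact_seq hb hc1 hc2
  have hcv : RSL.Cv (fun k => (fun x : Fin n → ℝ => Matrix.mulVec (A (φ k)) x) '' K (φ k)) L := hφL
  -- transfer to the images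
  have hequiv : ∀ k, ∃ T : (Fin n → ℝ) ≃ₗ[ℝ] (Fin n → ℝ),
      (fun x : Fin n → ℝ => Matrix.mulVec (A k) x) '' K k = T '' K k := by
    intro k
    obtain ⟨T, hT⟩ := RSL.exists_equiv (hA k)
    exact ⟨T, by rw [show (fun x : Fin n → ℝ => Matrix.mulVec (A k) x) = T from
      funext fun x => (hT x).symm]⟩
  have hfar' : ∀ k, Far ε₁ ((fun x : Fin n → ℝ => Matrix.mulVec (A k) x) '' K k) := by
    intro k
    obtain ⟨T, hT⟩ := hequiv k
    rw [hT, far_image]
    exact hfar k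
  have hnear' : ∀ k, NearP ε₂ ((fun x : Fin n → ℝ => Matrix.mulVec (A k) x) '' K k) := by
    intro k
    obtain ⟨T, hT⟩ := hequiv k
    rw [hT, nearP_image]
    exact hnear k
  have hrho' : ∀ k : ℕ, 1 - 1 / ((k : ℝ) + 1) <
      RSL.rh ((fun x : Fin n → ℝ => Matrix.mulVec (A k) x) '' K k) := by
    intro k
    rw [RSL.rh_image (hA k) (hK k).compact]
    exact hrho k
  -- the limit
  have hlim := hcv.tendsto_rh (fun k => hb _) hL
  have h1L : 1 ≤ RSL.rh L := by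
    have ht : Tendsto (fun k : ℕ => 1 - 1 / ((φ k : ℝ) + 1)) atTop (𝓝 (1 - 0)) := by
      have h3 : Tendsto (fun k : ℕ => 1 / ((k : ℝ) + 1)) atTop (𝓝 0) :=
        tendsto_one_div_add_atTop_nhds_zero_nat
      exact tendsto_const_nhds.sub (h3.comp hφ.tendsto_atTop)
    rw [sub_zero] at ht
    exact le_of_tendsto_of_tendsto ht hlim (Eventually.of_forall fun k => (hrho' (φ k)).le)
  obtain ⟨δ, hδ, hδ2⟩ := exists_room h2 h20
  have hLnear : NearP ε₀ L := by
    obtain ⟨k, h3, h4⟩ := (hcv δ hδ).exists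
    exact ((hnear' (φ k)).comp h3 h4).mono hL (by positivity) hδ2.le
  obtain ⟨h5, h6⟩ := hrig L hL hLnear
  have hLp : Ppd L := h6 (le_antisymm h5 h1L)
  obtain ⟨k, h7, h8⟩ := (hcv (ε₁ / 2) (by positivity)).exists
  exact hfar' (φ k) (ε₁ / 2) (by positivity) (by linarith) ⟨L, hLp, h7, h8⟩

theorem gap_one (hn : 0 < n) {ε : ℝ} (hε : 0 < ε) (N : ℕ)
    (H : ∀ a : Fin N → Fin n → ℝ, Spn a → rhoG (pol a) ≤ 1 ∧ (rhoG (pol a) = 1 → Ppd (pol a))) :
    ∃ r : ℝ, r < 1 ∧ ∀ a : Fin N → Fin n → ℝ, Spn a → Far ε (pol a) → rhoG (pol a) ≤ r := by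
  by_cases hne : ∃ a : Fin N → Fin n → ℝ, Spn a ∧ Far ε (pol a)
  · obtain ⟨a, ha, hfar, hmax⟩ := exists_max_far hn hne
    obtain ⟨h1, h2⟩ := H a ha
    refine ⟨rhoG (pol a), lt_of_le_of_ne h1 fun he => not_far_ppd (h2 he) hε hfar, hmax⟩
  · push Not at hne
    exact ⟨0, one_pos, fun a ha hf => absurd hf (hne a ha)⟩

theorem gap_small (hn : 0 < n) {ε : ℝ} (hε : 0 < ε) (N₀ : ℕ)
    (H : ∀ N ≤ N₀, ∀ a : Fin N → Fin n → ℝ, Spn a →
      rhoG (pol a) ≤ 1 ∧ (rhoG (pol a) = 1 → Ppd (pol a))) :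
    ∃ r : ℝ, r < 1 ∧ ∀ N ≤ N₀, ∀ a : Fin N → Fin n → ℝ, Spn a → Far ε (pol a) →
      rhoG (pol a) ≤ r := by
  induction N₀ with
  | zero =>
    obtain ⟨r, hr, h⟩ := gap_one hn hε 0 (H 0 le_rfl)
    refine ⟨r, hr, fun N hN => ?_⟩
    obtain rfl : N = 0 := by omega
    exact h
  | succ M ih =>
    obtain ⟨r, hr, h⟩ := ih fun N hN => H N (by omega)
    obtain ⟨r', hr', h'⟩ := gap_one hn hε (M + 1) (H (M + 1) le_rfl)
    refine ⟨max r r', max_lt hr hr', fun N hN a ha hf => ?_⟩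
    rcases Nat.lt_or_ge N (M + 1) with h1 | h1
    · exact (h N (by omega) a ha hf).trans (le_max_left _ _)
    · obtain rfl : N = M + 1 := by omega
      exact (h' a ha hf).trans (le_max_right _ _)

/-- a maximiser in the far class which is not on the boundary of the class is a local maximiser -/
theorem local_of_far {ε₁ ε₂ : ℝ} (h1 : 0 < ε₁) (h12 : ε₁ < ε₂) {a : Fin N → Fin n → ℝ}
    (ha : Spn a) (hnear : ¬ NearP ε₂ (pol a))
    (hmax : ∀ b : Fin N → Fin n → ℝ, Spn b → Far ε₁ (pol b) → rhoG (pol b) ≤ rhoG (pol a)) :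
    ∀ᶠ b in 𝓝 a, Spn b → rhoG (pol b) ≤ rhoG (pol a) := by
  obtain ⟨δ, hδ, hδ2⟩ := exists_room h1 h12
  filter_upwards [pol_near ha hδ] with b hb hs
  refine hmax b hs fun ε' h3 h4 h5 => hnear ?_
  refine (h5.comp hb.2.1 hb.2.2).mono (body_pol ha) (by positivity) ?_
  have : ε' * δ ≤ ε₁ * δ := mul_le_mul_of_nonneg_right h4.le hδ.le
  linarith

theorem pol_nearP_of {ε₁ ε₂ : ℝ} (h : ε₁ ≤ ε₂) {K : Set (Fin n → ℝ)} (hf : Far ε₂ K) : Far ε₁ K :=
  fun ε' h1 h2 => hf ε' h1 (h2.trans_le h)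

/-- transfer of a local maximiser to isotropic position -/
theorem lcrit_of_local {a : Fin N → Fin n → ℝ} (ha : Spn a)
    (hloc : ∀ᶠ b in 𝓝 a, Spn b → rhoG (pol b) ≤ rhoG (pol a)) (hne : ∀ i, (cel a i).Nonempty) :
    ∃ b : Fin N → Fin n → ℝ, LCrit b ∧ rhoG (pol b) = rhoG (pol a) := by
  obtain ⟨T, hT⟩ := exists_iso (body_pol ha)
  obtain ⟨b, hb1, hb2, hb3, hb4⟩ := pol_image T a
  have hrT : rhoG (pol b) = rhoG (pol a) := by
    rw [← hb1, rhoG_image T (body_pol ha).compact]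
  refine ⟨b, ⟨hb3 ha, ?_, ?_, ?_⟩, hrT⟩
  · -- the pull back
    let P : (Fin N → Fin n → ℝ) → Fin N → Fin n → ℝ := fun c i j => c i ⬝ᵥ T (Pi.single j 1)
    have hPc : Continuous P := by
      refine continuous_pi fun i => continuous_pi fun j => ?_
      show Continuous fun c : Fin N → Fin n → ℝ => c i ⬝ᵥ T (Pi.single j 1)
      unfold dotProduct
      fun_prop
    have hPx : ∀ c i x, P c i ⬝ᵥ x = c i ⬝ᵥ T x := by
      intro c i x
      show (fun j => c i ⬝ᵥ T (Pi.single j 1)) ⬝ᵥ x = c i ⬝ᵥ T x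
      conv_rhs => rw [pi_eq_sum_univ' x]
      rw [map_sum, dotProduct_sum]
      unfold dotProduct
      refine Finset.sum_congr rfl fun j _ => ?_
      rw [map_smul]
      simp only [Pi.smul_apply, smul_eq_mul]
      rw [Finset.sum_mul]
      refine Finset.sum_congr rfl fun k _ => ?_
      ring
    have hPb : P b = a := by
      funext i j
      show b i ⬝ᵥ T (Pi.single j 1) = a i j
      rw [hb2, dotProduct_single_one]
    have hPpol : ∀ c, T '' pol (P c) = pol c := by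
      intro c
      ext y
      constructor
      · rintro ⟨x, hx, rfl⟩ i
        rw [← hPx]
        exact hx i
      · intro hy
        refine ⟨T.symm y, fun i => ?_, T.apply_symm_apply y⟩
        rw [hPx, T.apply_symm_apply]
        exact hy i
    have hPs : ∀ c, Spn c → Spn (P c) := by
      intro c hc
      rw [spn_iff] at hc ⊢
      intro x hx
      have h1 : T x = 0 := hc (T x) fun i => by
        rw [← hPx]
        exact hx i
      exact (LinearEquiv.map_eq_zero_iff T).1 h1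
    have ht : Tendsto P (𝓝 b) (𝓝 a) := by
      have := hPc.tendsto b
      rwa [hPb] at this
    filter_upwards [ht.eventually hloc] with c hc hs
    have h2 := hc (hPs c hs)
    rw [hrT, ← hPpol c, rhoG_image T (body_pol (hPs c hs)).compact]
    exact h2
  · rw [← hb1]
    exact hT
  · intro i
    refine (isOpen_cel b i).measure_pos volume ?_
    rw [hb4 i]
    exact (hne i).image _

private theorem drop_aux30 {M : ℕ} (a : Fin (M + 1) → Fin n → ℝ) (hs : Spn a) (i : Fin (M + 1))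
    (hemp : cel a i = ∅) : ∃ b : Fin M → Fin n → ℝ, Spn b ∧ pol b = pol a := by
  have key : ∀ x : Fin n → ℝ, ∃ j : Fin M, |a i ⬝ᵥ x| ≤ |a (i.succAbove j) ⬝ᵥ x| := by
    intro x
    have hx : x ∉ cel a i := by
      rw [hemp]
      exact Set.notMem_empty x
    have hx' : ¬ ∀ j, j ≠ i → |a j ⬝ᵥ x| < |a i ⬝ᵥ x| := hx
    push Not at hx'
    obtain ⟨j, hj, hle⟩ := hx'
    obtain ⟨k, hk⟩ := Fin.exists_succAbove_eq hj
    exact ⟨k, by rw [hk]; exact hle⟩
  refine ⟨fun j => a (i.succAbove j), ?_, ?_⟩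
  · rw [spn_iff] at hs ⊢
    intro x hx
    apply hs x
    intro j
    by_cases hj : j = i
    · subst hj
      obtain ⟨k, hk⟩ := key x
      rw [hx k, abs_zero] at hk
      exact abs_eq_zero.1 (le_antisymm hk (abs_nonneg _))
    · obtain ⟨k, hk⟩ := Fin.exists_succAbove_eq hj
      rw [← hk]
      exact hx k
  · ext x
    constructor
    · intro hx j
      have hx1 : ∀ k : Fin M, |a (i.succAbove k) ⬝ᵥ x| ≤ 1 := hx
      by_cases hj : j = i
      · subst hj
        obtain ⟨k, hk⟩ := key x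
        exact hk.trans (hx1 k)
      · obtain ⟨k, hk⟩ := Fin.exists_succAbove_eq hj
        rw [← hk]
        exact hx1 k
    · intro hx k
      exact hx (i.succAbove k)

/-- a family with an empty cell can be shortened -/
theorem drop_cel (a : Fin N → Fin n → ℝ) (hs : Spn a) (i : Fin N) (hemp : cel a i = ∅) :
    ∃ M < N, ∃ b : Fin M → Fin n → ℝ, Spn b ∧ pol b = pol a := by
  cases N with
  | zero => exact i.elim0
  | succ M =>
    obtain ⟨b, h1, h2⟩ := drop_aux30 a hs i hemp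
    exact ⟨M, Nat.lt_succ_self M, b, h1, h2⟩

/-- polytopes near `K` with `rhoG > r`, far from parallelepipeds -/
theorem exists_pol_far {K : Set (Fin n → ℝ)} (hK : IsSymmBody K) {r ε₁ ε₂ : ℝ} (h1 : 0 < ε₁)
    (h12 : ε₁ < ε₂) (hfar : ¬ NearP ε₂ K) (h : r < rhoG K) :
    ∃ (N : ℕ) (a : Fin N → Fin n → ℝ), Spn a ∧ Far ε₁ (pol a) ∧ r < rhoG (pol a) := by
  obtain ⟨δ, hδ, hδ2⟩ := exists_room h1 h12
  have hcont : Continuous fun ε : ℝ => (1 + ε) ^ (2 * n * (n + 2)) * r := by fun_prop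
  have h2 : ∀ᶠ ε in 𝓝 (0 : ℝ), (1 + ε) ^ (2 * n * (n + 2)) * r < rhoG K := by
    apply (isOpen_lt hcont continuous_const).mem_nhds
    show (1 + (0 : ℝ)) ^ (2 * n * (n + 2)) * r < rhoG K
    rwa [add_zero, one_pow, one_mul]
  have h3 : ∀ᶠ ε in 𝓝 (0 : ℝ), ε < δ := gt_mem_nhds hδ
  have h4 : ∀ᶠ ε in 𝓝[>] (0 : ℝ), (1 + ε) ^ (2 * n * (n + 2)) * r < rhoG K ∧ ε < δ :=
    (h2.and h3).filter_mono nhdsWithin_le_nhds
  obtain ⟨ε, ⟨hε1, hε3⟩, hε⟩ := (h4.and self_mem_nhdsWithin).exists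
  have hε' : (0 : ℝ) < ε := hε
  obtain ⟨N, a, hN, hs, hKa, haK⟩ := exists_pol_near hK hε'
  have hb := body_pol hs
  have h5 : pol a ⊆ (1 + ε) • pol a := by
    have := smul_sub hb one_pos (by linarith : (1 : ℝ) ≤ 1 + ε)
    rwa [one_smul] at this
  have h6 : K ⊆ (1 + ε) • pol a := hKa.trans h5
  refine ⟨N, a, hs, fun ε' h7 h8 h9 => hfar ?_, ?_⟩
  · have h10 := h9.comp haK h6
    refine h10.mono hK (by positivity) ?_
    have h11 : ε' * ε ≤ ε₁ * δ := mul_le_mul h8.le hε3.le hε'.le h1.le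
    linarith
  · have h10 := rhoG_near hK hb hε' h6 haK
    have h11 : (0 : ℝ) < (1 + ε) ^ (2 * n * (n + 2)) := by positivity
    exact lt_of_mul_lt_mul_left (hε1.trans_le h10) h11.le

theorem all_of_lcrit (hn : 1 ≤ n) (N₀ : ℕ)
    (H₄ : ∀ N ≤ N₀, ∀ a : Fin N → Fin n → ℝ, Spn a →
      rhoG (pol a) ≤ 1 ∧ (rhoG (pol a) = 1 → Ppd (pol a)))
    (H₅ : ∃ δ : ℝ, 0 < δ ∧ ∀ N, N₀ < N → ∀ a : Fin N → Fin n → ℝ, LCrit a →
      rhoG (pol a) ≤ 1 - δ)
    {K : Set (Fin n → ℝ)} (hK : IsSymmBody K) :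
    RSL.rh K ≤ 1 ∧ (RSL.rh K = 1 → Ppd K) := by
  classical
  obtain ⟨δ, hδ, H₅⟩ := H₅
  obtain ⟨ε₀, hε₀, hrig₀⟩ := near_rigid hn
  have hrig : ∀ K : Set (Fin n → ℝ), IsSymmBody K → NearP ε₀ K →
      rhoG K ≤ 1 ∧ (rhoG K = 1 → Ppd K) := by
    rintro K hK ⟨L, hL, h1, h2⟩
    exact hrig₀ L hL K hK h1 h2
  by_contra hcon
  -- `rh K ≥ 1` and `K` is not near a parallelepiped
  have hnot : ¬ NearP ε₀ K := fun h => hcon (hrig K hK h)
  have hge : 1 ≤ rhoG K := by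
    by_contra hlt
    push Not at hlt
    exact hcon ⟨hlt.le, fun he => absurd he hlt.ne⟩
  obtain ⟨r₁, hr₁, hann⟩ := gap_ann (n := n) (ε₀ := ε₀) (ε₁ := ε₀ / 4) (ε₂ := ε₀ / 2)
    (by positivity) (by positivity) (by linarith) hrig
  obtain ⟨r₂, hr₂, hsm⟩ := gap_small (n := n) (by omega) (ε := ε₀ / 4) (by positivity) N₀ H₄
  obtain ⟨r, hr⟩ : ∃ r, r = max (max r₁ r₂) (1 - δ) := ⟨_, rfl⟩
  have hr1 : r < 1 := by
    rw [hr]
    exact max_lt (max_lt hr₁ hr₂) (by linarith)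
  have hrr1 : r₁ ≤ r := by
    rw [hr]
    exact (le_max_left _ _).trans (le_max_left _ _)
  have hrr2 : r₂ ≤ r := by
    rw [hr]
    exact (le_max_right _ _).trans (le_max_left _ _)
  have hrr3 : 1 - δ ≤ r := by
    rw [hr]
    exact le_max_right _ _
  have hex : ∃ N : ℕ, ∃ a : Fin N → Fin n → ℝ, Spn a ∧ Far (ε₀ / 4) (pol a) ∧
      r < rhoG (pol a) :=
    exists_pol_far hK (by positivity) (by linarith) hnot (hr1.trans_le hge)
  obtain ⟨a₀, ha₀, hf₀, hr₀⟩ := Nat.find_spec hex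
  obtain ⟨a, ha, hfar, hmax⟩ := exists_max_far (by omega) ⟨a₀, ha₀, hf₀⟩
  have hra : r < rhoG (pol a) := hr₀.trans_le (hmax a₀ ha₀ hf₀)
  have hN : N₀ < Nat.find hex := by
    by_contra hle
    exact absurd (hsm _ (not_lt.1 hle) a ha hfar) (not_le.2 (hrr2.trans_lt hra))
  have hnn : ¬ NearP (ε₀ / 2) (pol a) := fun h =>
    absurd (hann (pol a) (body_pol ha) hfar h) (not_le.2 (hrr1.trans_lt hra))
  have hloc := local_of_far (by positivity) (by linarith : ε₀ / 4 < ε₀ / 2) ha hnn hmax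
  have hne : ∀ i, (cel a i).Nonempty := by
    intro i
    rw [Set.nonempty_iff_ne_empty]
    intro hemp
    obtain ⟨M, hM, b, hb1, hb2⟩ := drop_cel a ha i hemp
    exact Nat.find_min hex hM ⟨b, hb1, by rw [hb2]; exact hfar, by rw [hb2]; exact hra⟩
  obtain ⟨b, hb, hbr⟩ := lcrit_of_local ha hloc hne
  have h1 := H₅ _ hN b hb
  rw [hbr] at h1
  exact absurd h1 (not_le.2 (hrr3.trans_lt hra))

end Pool.Agent.SL6
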